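import Pool.Agent.R2.NestMain

/-!
# Multiplicity bipartitions are not nested

There is a graph on 10 vertices that achieves the multiplicity bipartition `[6,4]` and no other
one; in particular it does not achieve `[5,5]`, so `MP([6,4]) ⊄ MP([5,5])`.
-/

set_option autoImplicit false

open Finset

namespace Pool.Agent.Results.MP_808179_co.NestingFails

/-- `A ∈ S(G)`: `A` is real symmetric and for `i ≠ j` the entry is nonzero exactly on the edges;
the diagonal is free -/
def InS {n : ℕ} (G : SimpleGraph (Fin n)) (A : Matrix (Fin n) (Fin n) ℝ) : Prop :=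
  A.IsSymm ∧ ∀ i j, i ≠ j → (A i j ≠ 0 ↔ G.Adj i j)

/-- `G` achieves `[n - k, k]`: some `A ∈ S(G)` has exactly the two distinct eigenvalues `a`, `b`,
with multiplicities `n - k` and `k` -/
def Achieves {n : ℕ} (G : SimpleGraph (Fin n)) (k : ℕ) : Prop :=
  ∃ A : Matrix (Fin n) (Fin n) ℝ, InS G A ∧ ∃ a b : ℝ, a ≠ b ∧
    A.charpoly.roots = Multiset.replicate (n - k) a + Multiset.replicate k b

open Pool.Agent.R2 in
theorem achieves_four : Achieves Nest.G 4 := by
  refine ⟨Nest.Q0, ⟨?_, Nest.Q0_pat⟩, -1, 1, by norm_num, ?_⟩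
  · have := Nest.Q0_herm
    rw [Matrix.IsHermitian, Matrix.conjTranspose_eq_transpose_of_trivial] at this
    exact this
  · have ht : ∑ i, Nest.Q0 i i = ((4 : ℕ) : ℝ) - ((10 - 4 : ℕ) : ℝ) := by
      rw [Nest.Q0_tr]; norm_num
    exact Nest.roots_of_pm (by norm_num) Nest.Q0 Nest.Q0_herm Nest.Q0_sq ht

open Pool.Agent.R2 in
theorem only_four (j : ℕ) (hj5 : j ≤ 5) (h : Achieves Nest.G j) : j = 4 := by
  obtain ⟨A, ⟨hs, hp⟩, a, b, hab, hr⟩ := h
  have hA : A.IsHermitian := by
    rw [Matrix.IsHermitian, Matrix.conjTranspose_eq_transpose_of_trivial]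
    exact hs
  obtain ⟨he, ht⟩ := Nest.eig_of_roots A hA a b hr
  have hq := Nest.quad A hA a b he
  have hd : a - b ≠ 0 := sub_ne_zero.2 hab
  set Q : Matrix (Fin 10) (Fin 10) ℝ :=
    (2 / (a - b)) • A - ((a + b) / (a - b)) • (1 : Matrix (Fin 10) (Fin 10) ℝ) with hQ
  have hQs : ∀ i j, Q i j = Q j i := by
    intro i j
    have e1 : A i j = A j i := (hs.apply j i)
    have e2 : (1 : Matrix (Fin 10) (Fin 10) ℝ) i j = (1 : Matrix (Fin 10) (Fin 10) ℝ) j i := by
      rw [Matrix.one_apply, Matrix.one_apply]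
      by_cases h : i = j
      · rw [if_pos h, if_pos h.symm]
      · rw [if_neg h, if_neg (Ne.symm h)]
    simp only [hQ, Matrix.sub_apply, Matrix.smul_apply, smul_eq_mul]
    rw [e1, e2]
  have hQQ : Q * Q = 1 := by
    rw [hQ, Matrix.sub_mul, Matrix.mul_sub, Matrix.mul_sub]
    simp only [Matrix.smul_mul, Matrix.mul_smul, Matrix.mul_one, Matrix.one_mul, hq, smul_sub,
      smul_smul]
    ext i j
    simp only [Matrix.sub_apply, Matrix.smul_apply, smul_eq_mul]
    field_simp
    ring
  have hQp : ∀ i j, i ≠ j → (Q i j ≠ 0 ↔ Nest.G.Adj i j) := by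
    intro i j hij
    rw [← hp i j hij]
    have : Q i j = (2 / (a - b)) * A i j := by
      simp only [hQ, Matrix.sub_apply, Matrix.smul_apply, smul_eq_mul]
      rw [Matrix.one_apply_ne hij]
      ring
    rw [this]
    have h2 : (2 / (a - b) : ℝ) ≠ 0 := div_ne_zero two_ne_zero hd
    constructor
    · intro h h'
      exact h (by rw [h', mul_zero])
    · intro h
      exact mul_ne_zero h2 h
  have h4 := Nest.tr_sq Q hQs hQQ hQp
  have htr : ∑ i, Q i i = 10 - 2 * (j : ℝ) := by
    have e : ∑ i, Q i i = (2 / (a - b)) * ∑ i, A i i - 10 * ((a + b) / (a - b)) := by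
      rw [Finset.mul_sum]
      simp only [hQ, Matrix.sub_apply, Matrix.smul_apply, smul_eq_mul, Matrix.one_apply_eq,
        Finset.sum_sub_distrib]
      simp
    rw [e, ht, Nat.cast_sub (by omega)]
    push_cast
    field_simp
    ring
  rw [htr] at h4
  have h5 : ((10 : ℝ) - 2 * j - 2) * (10 - 2 * j + 2) = 0 := by linear_combination h4
  rcases mul_eq_zero.1 h5 with h6 | h6
  · have : (j : ℝ) = 4 := by linarith
    exact_mod_cast this
  · have : (j : ℝ) = 6 := by linarith
    have h7 : j = 6 := by exact_mod_cast this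
    omega

/-- **Main result.** Nesting of multiplicity bipartitions fails (`n = 10`, `k = 4`): there is a
graph on 10 vertices which achieves `[6,4]` and no other multiplicity bipartition. -/
theorem result :
    (∃ G : SimpleGraph (Fin 10), ∀ j, 1 ≤ j → j ≤ 5 → (Achieves G j ↔ j = 4)) ∧
    ¬ (∀ n k : ℕ, 3 ≤ k → k + 1 ≤ n / 2 → ∀ G : SimpleGraph (Fin n),
        Achieves G k → Achieves G (k + 1)) := by
  refine ⟨⟨Pool.Agent.R2.Nest.G, fun j _ hj => ⟨only_four j hj, ?_⟩⟩, ?_⟩
  · rintro rfl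
    exact achieves_four
  · intro h
    have := h 10 4 (by norm_num) (by norm_num) Pool.Agent.R2.Nest.G achieves_four
    have := only_four 5 le_rfl this
    omega

end Pool.Agent.Results.MP_808179_co.NestingFails
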